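import Pool.Agent.Helper72.MK.Goals

/-! Packet MK-TAU (MP_6fb600_gt): the equipartition function. -/

open MeasureTheory Set Filter Topology
open scoped ENNReal Quaternion
open Pool.Agent.Helper47.AQ Pool.Agent.Helper72.MK

noncomputable section

namespace Pool.Agent.Helper26.MK

lemma indep_of_ortho {u v : Fin 3 → ℝ} (hu : ip u u = 1) (hv : ip v v = 1) (huv : ip u v = 0) :
    LinearIndependent ℝ ![u, v] := by
  rw [LinearIndependent.pair_iff]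
  intro s t h
  have h0 : ∀ i, s * u i + t * v i = 0 := fun i => by
    have := congrFun h i
    simpa using this
  simp only [ip, Fin.sum_univ_three] at hu hv huv
  constructor
  · linear_combination u 0 * h0 0 + u 1 * h0 1 + u 2 * h0 2 - s * hu - t * huv
  · linear_combination v 0 * h0 0 + v 1 * h0 1 + v 2 * h0 2 - t * hv - s * huv

lemma QV_neg (L : Set (Fin 3 → ℝ)) (u v : Fin 3 → ℝ) (t : ℝ) : QV L u (-v) t = QV L u v t := by
  have h : ∀ x : Fin 3 → ℝ, ip x (-v) = -ip x v := by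
    intro x
    simp [ip]
  unfold QV
  simp only [h, abs_neg]

/-- **TAU** -/
theorem tau (hfrm : FRMStmt) (hqvc : QVCStmt) (hqvm : QVMStmt) (hqvs : QVSStmt)
    (himp : IMPStmt) : TAUStmt := by
  intro K hK
  obtain ⟨⟨hc1, hc2, -⟩, hfr⟩ := hfrm
  have hind : ∀ g ∈ SS ℍ[ℝ], LinearIndependent ℝ ![q1 g, q2 g] := by
    intro g hg
    obtain ⟨-, -, ⟨h1, h2, -, h12, -⟩, -⟩ := hfr g hg
    exact indep_of_ortho h1 h2 h12
  have hmaps0 : ∀ g : ℍ[ℝ], g ∈ SS ℍ[ℝ] → (q1 g, q2 g) ∈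
      {q : (Fin 3 → ℝ) × (Fin 3 → ℝ) | LinearIndependent ℝ ![q.1, q.2]} := by
    intro g hg
    exact hind g hg
  have hex : ∀ g : ℍ[ℝ], ∃ t : ℝ, g ∈ SS ℍ[ℝ] →
      0 < t ∧ QV (dpol K) (q1 g) (q2 g) t = (volume (dpol K)).toReal / 4 := by
    intro g
    by_cases hg : g ∈ SS ℍ[ℝ]
    · obtain ⟨-, t, ht⟩ := hqvm K hK (q1 g) (q2 g) (hind g hg)
      exact ⟨t, fun _ => ht⟩
    · exact ⟨1, fun h => absurd h hg⟩
  choose τ hτ using hex
  have huniq : ∀ g ∈ SS ℍ[ℝ], ∀ t : ℝ, 0 < t →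
      QV (dpol K) (q1 g) (q2 g) t = (volume (dpol K)).toReal / 4 → τ g = t := by
    intro g hg t ht h
    have h1 := (hqvm K hK (q1 g) (q2 g) (hind g hg)).1.injOn
    exact h1 (mem_Ioi.mpr (hτ g hg).1) (mem_Ioi.mpr ht) ((hτ g hg).2.trans h.symm)
  refine ⟨τ, ?_, ?_⟩
  · refine himp ℍ[ℝ] (SS ℍ[ℝ]) (fun g t => QV (dpol K) (q1 g) (q2 g) t)
      ((volume (dpol K)).toReal / 4) τ (fun g hg => hτ g hg)
      (fun g hg => (hqvm K hK (q1 g) (q2 g) (hind g hg)).1) ?_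
    intro t _
    have hpair : Continuous (fun g : ℍ[ℝ] => (q1 g, q2 g)) := hc1.prodMk hc2
    have hmaps : MapsTo (fun g : ℍ[ℝ] => (q1 g, q2 g)) (SS ℍ[ℝ])
        {q : (Fin 3 → ℝ) × (Fin 3 → ℝ) | LinearIndependent ℝ ![q.1, q.2]} := hmaps0
    have h := ContinuousOn.comp (hqvc K hK t) hpair.continuousOn hmaps
    exact h
  · intro g hg
    obtain ⟨ho, hi, -, ⟨a1, a2, -⟩, ⟨b1, b2, -⟩⟩ := hfr g hg
    refine ⟨(hτ g hg).1, (hτ g hg).2, ?_, ?_⟩
    · apply huniq _ ho _ (inv_pos.mpr (hτ g hg).1)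
      rw [a1, a2]
      exact hqvs K hK (q1 g) (q2 g) (τ g) (hind g hg) (hτ g hg).1 (hτ g hg).2
    · apply huniq _ hi _ (hτ g hg).1
      rw [b1, b2, QV_neg]
      exact (hτ g hg).2

end Pool.Agent.Helper26.MK
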